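import Pool.Agent.Helper17.SUB.T1A
import Pool.Agent.Helper77.SUBK.SheetK

/-!
Project SUBK, row T1KG: integers which are sums of boundedly many S-units of a Galois extension
of `ℚ` (port of T1A).
-/

set_option autoImplicit false

namespace Pool.Agent.Helper17.SUBK

open Finset Pool.Agent.Helper70.SUB Pool.Agent.Helper77.SUBK

/-! ### evaluation of sums -/

theorem evM_sum (hB : ST_LAUBM) {M : Type} [Field M] {r : ℕ} {w : Fin r → M}
    (hw : ∀ k, w k ≠ 0) {ι : Type} (s : Finset ι) (F : ι → LauM M r) :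
    evM w (∑ i ∈ s, F i) = ∑ i ∈ s, evM w (F i) := by
  classical
  induction s using Finset.induction_on with
  | empty =>
    rw [Finset.sum_empty, Finset.sum_empty]
    have h := ((hB M r).1 w hw).2.2.2.1 0 0
    rw [zero_smul, zero_mul] at h
    exact h
  | insert a s ha ih =>
    rw [Finset.sum_insert ha, Finset.sum_insert ha, ((hB M r).1 w hw).2.2.1, ih]

theorem evM_single_sum (hB : ST_LAUBM) {M : Type} [Field M] {r : ℕ} {w : Fin r → M}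
    (hw : ∀ k, w k ≠ 0) {ι : Type} [Fintype ι] (m : ι → Fin r → ℤ) (c : ι → M) :
    evM w (∑ i, AddMonoidAlgebra.single (m i) (c i)) = ∑ i, c i * monM w (m i) := by
  rw [evM_sum hB hw]
  exact sum_congr rfl fun i _ => ((hB M r).1 w hw).2.1 _ _

/-! ### heights -/

section HB

variable {M : Type} [Field M] [NumberField M] {S : Finset ℕ}

theorem HB_mono {P : PF S M} {A B : ℝ} {z : M} (h : HB P A z) (hAB : A ≤ B) : HB P B z :=
  fun v hv σ => (h v hv σ).trans hAB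

theorem HB_mul {P : PF S M} {A B : ℝ} {x y : M} (hx : HB P A x) (hy : HB P B y) :
    HB P (A * B) (x * y) := by
  intro v hv σ
  rw [map_mul, P.mul v hv]
  exact mul_le_mul (hx v hv σ) (hy v hv σ) (P.nn _ _) ((P.nn _ _).trans (hx v hv σ))

theorem HB_one {P : PF S M} : HB P 1 (1 : M) := by
  intro v hv σ
  rw [map_one, P.one hv]

theorem HB_prod {P : PF S M} {ι : Type} (s : Finset ι) (A : ι → ℝ) (z : ι → M)
    (h : ∀ i ∈ s, HB P (A i) (z i)) : HB P (∏ i ∈ s, A i) (∏ i ∈ s, z i) := by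
  classical
  induction s using Finset.induction_on with
  | empty => rw [Finset.prod_empty, Finset.prod_empty]; exact HB_one
  | insert a s ha ih =>
    rw [Finset.prod_insert ha, Finset.prod_insert ha]
    exact HB_mul (h a (Finset.mem_insert_self a s))
      (ih fun i hi => h i (Finset.mem_insert_of_mem hi))

theorem HB_const (P : PF S M) (z : M) : ∃ K : ℝ, 0 ≤ K ∧ HB P K z := by
  refine ⟨∑ v ∈ plc S, ∑ σ : M ≃ₐ[ℚ] M, P.nv v (σ z),
    Finset.sum_nonneg fun v _ => Finset.sum_nonneg fun σ _ => P.nn _ _, fun v hv σ => ?_⟩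
  have h1 : P.nv v (σ z) ≤ ∑ σ : M ≃ₐ[ℚ] M, P.nv v (σ z) :=
    Finset.single_le_sum (f := fun σ : M ≃ₐ[ℚ] M => P.nv v (σ z)) (fun σ _ => P.nn _ _)
      (Finset.mem_univ σ)
  have h2 : ∑ σ : M ≃ₐ[ℚ] M, P.nv v (σ z) ≤ ∑ v ∈ plc S, ∑ σ : M ≃ₐ[ℚ] M, P.nv v (σ z) :=
    Finset.single_le_sum (f := fun v => ∑ σ : M ≃ₐ[ℚ] M, P.nv v (σ z))
      (fun v _ => Finset.sum_nonneg fun σ _ => P.nn _ _) hv
  exact h1.trans h2

theorem HB_zpow [IsGalois ℚ M] (hPRK : ST_PRK) (P : PF S M) (hS : ∀ p ∈ S, p.Prime) {z : M}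
    {H : ℝ} (hz : SV S z) (hH : HB P H z) (e : ℤ) :
    HB P (H ^ (((plc S).card * Fintype.card (M ≃ₐ[ℚ] M) + 1) * e.natAbs)) (z ^ e) := by
  obtain ⟨h1, h2⟩ := (hPRK M S P hS).2.2 z H hz hH
  set N : ℕ := (plc S).card * Fintype.card (M ≃ₐ[ℚ] M) with hN
  intro v hv σ
  rcases Int.natAbs_eq e with he | he
  · rw [show z ^ e = z ^ (e.natAbs) by
      conv_lhs => rw [he]
      exact zpow_natCast _ _, map_pow, P.pow hv]
    calc P.nv v (σ z) ^ e.natAbs ≤ H ^ e.natAbs := pow_le_pow_left₀ (P.nn _ _) (hH v hv σ) _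
      _ ≤ H ^ ((N + 1) * e.natAbs) :=
        pow_le_pow_right₀ h1 (Nat.le_mul_of_pos_left _ (Nat.succ_pos N))
  · rw [show z ^ e = (z⁻¹) ^ (e.natAbs) by
      conv_lhs => rw [he]
      rw [zpow_neg, zpow_natCast, inv_pow], map_pow, P.pow hv]
    calc P.nv v (σ z⁻¹) ^ e.natAbs ≤ (H ^ N) ^ e.natAbs :=
          pow_le_pow_left₀ (P.nn _ _) (h2 v hv σ) _
      _ = H ^ (N * e.natAbs) := (pow_mul _ _ _).symm
      _ ≤ H ^ ((N + 1) * e.natAbs) :=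
        pow_le_pow_right₀ h1 (Nat.mul_le_mul_right _ (Nat.le_succ N))

/-- products of powers with a bounded factor -/
theorem HB_all [IsGalois ℚ M] (hPRK : ST_PRK) (P : PF S M) (hS : ∀ p ∈ S, p.Prime) {ι : Type}
    [Fintype ι] {r : ℕ} (κ : Fin r → M) (e : Fin r → ι → ℤ) :
    ∃ (K : ℝ) (E : ℕ), 1 ≤ K ∧ ∀ (u : ι → M) (w : Fin r → M) (H : ℝ), 1 ≤ H →
      (∀ i, SV S (u i)) → (∀ i, HB P H (u i)) → (∀ k, w k = κ k * ∏ i, u i ^ (e k i)) →
      ∀ k, HB P (K * H ^ E) (w k) := by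
  choose Kc hKc0 hKc using fun k => HB_const P (κ k)
  set N : ℕ := (plc S).card * Fintype.card (M ≃ₐ[ℚ] M) + 1 with hN
  refine ⟨1 + ∑ k, Kc k, ∑ k, ∑ i, N * (e k i).natAbs, ?_, ?_⟩
  · have := Finset.sum_nonneg fun k (_ : k ∈ (Finset.univ : Finset (Fin r))) => hKc0 k
    linarith
  · intro u w H hH hu hb hw k
    rw [hw k]
    have h1 : HB P (∏ i, H ^ (N * (e k i).natAbs)) (∏ i, u i ^ (e k i)) :=
      HB_prod Finset.univ _ _ fun i _ => HB_zpow hPRK P hS (hu i) (hb i) _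
    rw [Finset.prod_pow_eq_pow_sum] at h1
    have h2 := HB_mul (hKc k) h1
    refine HB_mono h2 ?_
    have h3 : Kc k ≤ 1 + ∑ k, Kc k := by
      have := Finset.single_le_sum (f := Kc) (fun k _ => hKc0 k) (Finset.mem_univ k)
      linarith
    have h4 : ∑ i, N * (e k i).natAbs ≤ ∑ k, ∑ i, N * (e k i).natAbs :=
      Finset.single_le_sum (f := fun k => ∑ i, N * (e k i).natAbs) (fun k _ => Nat.zero_le _)
        (Finset.mem_univ k)
    exact mul_le_mul h3 (pow_le_pow_right₀ hH h4) (by positivity)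
      (le_trans (hKc0 k) h3)

end HB

theorem T1KG (hC : ST_CLNK) (hHB : ST_HBK) (hM : ST_MONOK) (hPFX : ST_PFX) (hSVB : ST_SVB)
    (hPRK : ST_PRK) (hB : ST_LAUBM) (hCO : ST_COREK) (hE : ST_EXTR) : ST_T1KG := by
  classical
  intro M _ _ _ S t ε hS hε
  by_contra hcon
  obtain ⟨-, -, sv3, sv4, -, sv6, -, sv8, sv9, -⟩ := hSVB M
  set τ : Type := {s : ((Fin t → M) × (Fin t → M)) × (ℤ × ℤ) //
    (∀ i, s.1.1 i = 0 ∨ SV S (s.1.1 i)) ∧ (∀ i, s.1.2 i = 0 ∨ SV S (s.1.2 i)) ∧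
    ∑ i, s.1.1 i = (s.2.1 : M) ∧ ∑ i, s.1.2 i = (s.2.2 : M) ∧ s.2.2 ^ 2 ≠ s.2.1 ^ 3} with hτ
  obtain ⟨f, hf1, hf2⟩ := hE τ (fun s => s.1.2.1) (fun s => s.1.2.2) ε hε
    (fun s => s.2.2.2.2.2) (by
      rintro ⟨C, hC'⟩
      apply hcon
      refine ⟨C, fun a b x y ha hb hax hby hab => ?_⟩
      exact hC' ⟨((a, b), (x, y)), ha, hb, hax, hby, hab⟩)
  set x : ℕ → ℤ := fun j => (f j).1.2.1 with hx
  set y : ℕ → ℤ := fun j => (f j).1.2.2 with hy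
  have hjx : ∀ j : ℕ, (j : ℝ) ≤ |(x j : ℝ)| := hf1
  have hd : ∀ j, |((y j ^ 2 - x j ^ 3 : ℤ) : ℝ)| ≤ |(x j : ℝ)| ^ (1 / (2 + ε)) := hf2
  have hne : ∀ j, y j ^ 2 ≠ x j ^ 3 := fun j => (f j).2.2.2.2.2
  -- bounds
  have hy2 : ∀ j, 2 ≤ j → |(y j : ℝ)| ^ 2 ≤ 2 * |(x j : ℝ)| ^ 3 ∧
      |(x j : ℝ)| ^ 3 / 2 ≤ |(y j : ℝ)| ^ 2 := fun j hj => by
    have h2 : (2 : ℝ) ≤ |(x j : ℝ)| := le_trans (by exact_mod_cast hj) (hjx j)
    have h3 := hd j
    have h4 : |(x j : ℝ)| ^ (1 / (2 + ε)) ≤ |(x j : ℝ)| ^ (1 : ℝ) := by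
      refine Real.rpow_le_rpow_of_exponent_le (by linarith) ?_
      rw [div_le_one (by linarith)]
      linarith
    rw [Real.rpow_one] at h4
    have h5 : ((y j ^ 2 - x j ^ 3 : ℤ) : ℝ) = (y j : ℝ) ^ 2 - (x j : ℝ) ^ 3 := by push_cast; ring
    rw [h5] at h3
    have h6 : |(y j : ℝ)| ^ 2 = (y j : ℝ) ^ 2 := sq_abs _
    have h7 : |(x j : ℝ)| ^ 3 = |(x j : ℝ) ^ 3| := (abs_pow _ _).symm
    have h8 : |(x j : ℝ)| ≤ |(x j : ℝ)| ^ 3 / 2 := by nlinarith [sq_nonneg (|(x j : ℝ)|)]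
    have h9 := abs_sub_abs_le_abs_sub ((y j : ℝ) ^ 2) ((x j : ℝ) ^ 3)
    have h10 := abs_sub_abs_le_abs_sub ((x j : ℝ) ^ 3) ((y j : ℝ) ^ 2)
    rw [abs_sub_comm ((x j : ℝ) ^ 3)] at h10
    rw [abs_of_nonneg (sq_nonneg (y j : ℝ))] at h9 h10
    rw [h6]
    constructor
    · linarith
    · linarith
  -- cleaning of `x`
  have hMi : {j : ℕ | 2 ≤ j}.Infinite := Set.infinite_of_not_bddAbove fun ⟨b, hb⟩ => by
    have := hb (show b + 2 ∈ {j : ℕ | 2 ≤ j} by simp)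
    omega
  obtain ⟨M1, t1, c1, b1, hM1, hM1i, hc1, hb1, hs1, hp1⟩ := hC M S t {j | 2 ≤ j}
    (fun j => (f j).1.1.1) (fun j => (x j : M)) hMi (fun j _ i => (f j).2.1 i)
    (fun j _ => (f j).2.2.2.1)
  obtain ⟨M2, t2, c2, b2, hM2, hM2i, hc2, hb2, hs2, hp2⟩ := hC M S t M1
    (fun j => (f j).1.1.2) (fun j => (y j : M)) hM1i (fun j _ i => (f j).2.2.1 i)
    (fun j _ => (f j).2.2.2.2.1)
  -- independent quantities
  obtain ⟨M3, r, w, m, c, hM3, hM3i, hcn, hI, hu, hw⟩ := hM M (Fin t1 ⊕ Fin t2) M2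
    (fun j => Sum.elim (b1 j) (b2 j)) hM2i (fun j hj i => by
      cases i with
      | inl i => exact (hb1 j (hM2 hj) i).1
      | inr i => exact (hb2 j hj i).1)
  choose κ e hκ hwe using hw
  -- more places
  choose T hTp hT using fun k => sv4 (κ k) (hκ k)
  set S' : Finset ℕ := S ∪ Finset.univ.biUnion T with hS'def
  have hSS : S ⊆ S' := Finset.subset_union_left
  have hTS : ∀ k, T k ⊆ S' := fun k =>
    (Finset.subset_biUnion_of_mem T (Finset.mem_univ k)).trans Finset.subset_union_right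
  have hS' : ∀ p ∈ S', p.Prime := by
    intro p hp
    rw [hS'def, Finset.mem_union, Finset.mem_biUnion] at hp
    rcases hp with hp | ⟨k, -, hp⟩
    · exact hS p hp
    · exact hTp k p hp
  obtain ⟨P⟩ := hPFX M S' hS'
  have hb1' : ∀ j ∈ M1, ∀ i, SV S' (b1 j i) := fun j hj i => (sv3 S S' _ hSS).2 (hb1 j hj i)
  have hb2' : ∀ j ∈ M2, ∀ i, SV S' (b2 j i) := fun j hj i => (sv3 S S' _ hSS).2 (hb2 j hj i)
  obtain ⟨K, E, hK, hSQ⟩ := HB_all hPRK P hS' κ e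
  -- heights of the terms
  have m2' : ∀ j ∈ M3, 2 ≤ j := fun j hj => hM1 (hM2 (hM3 hj))
  have hxl' : ∀ j ∈ M3, (2 : ℝ) ≤ |(x j : ℝ)| := fun j hj =>
    le_trans (by exact_mod_cast m2' j hj) (hjx j)
  obtain ⟨K1, hK11, hK1⟩ := hHB M S' P t1 M3 c1 b1 x hS' hM3i hc1
    (fun j hj => hb1' j (hM2 (hM3 hj))) (fun j hj => hs1 j (hM2 (hM3 hj))) (fun j hj h0 => by
      have h2 := hxl' j hj
      rw [h0] at h2
      norm_num at h2)
    (fun i i' ρ hii => (hp1 i i' ρ hii).subset fun j hj => ⟨hM2 (hM3 hj.1), hj.2⟩)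
  obtain ⟨K2, hK21, hK2⟩ := hHB M S' P t2 M3 c2 b2 y hS' hM3i hc2
    (fun j hj => hb2' j (hM3 hj)) (fun j hj => hs2 j (hM3 hj)) (fun j hj h0 => by
      have h2 := hxl' j hj
      have h4 := (hy2 j (m2' j hj)).2
      rw [h0] at h4
      have h5 : 0 < |(x j : ℝ)| ^ 3 := by positivity
      norm_num at h4
      linarith)
    (fun i i' ρ hii => (hp2 i i' ρ hii).subset fun j hj => ⟨hM3 hj.1, hj.2⟩)
  set K3 : ℝ := K1 + 2 * K2 with hK3
  have hK31 : 1 ≤ K3 := by linarith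
  set R : ℕ := ⌈K * K3 ^ E⌉₊ with hR
  set M4 : Set ℕ := {j | j ∈ M3 ∧ R ≤ j ∧ (∀ i, HB P (K1 * |(x j : ℝ)| ^ (2 : ℕ)) (b1 j i)) ∧
    ∀ i, HB P (K2 * |(y j : ℝ)| ^ (2 : ℕ)) (b2 j i)} with hM4
  have hM4i : M4.Infinite := by
    intro hfin
    apply hM3i
    refine (((hfin.union (Set.finite_lt_nat R)).union hK1).union hK2).subset fun j hj => ?_
    by_cases h1 : ∀ i, HB P (K1 * |(x j : ℝ)| ^ (2 : ℕ)) (b1 j i)
    · by_cases h2 : ∀ i, HB P (K2 * |(y j : ℝ)| ^ (2 : ℕ)) (b2 j i)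
      · rcases lt_or_ge j R with h | h
        · exact Or.inl (Or.inl (Or.inr h))
        · exact Or.inl (Or.inl (Or.inl ⟨hj, h, h1, h2⟩))
      · exact Or.inr ⟨hj, h2⟩
    · exact Or.inl (Or.inr ⟨hj, h1⟩)
  have m2 : ∀ j ∈ M4, 2 ≤ j := fun j hj => m2' j hj.1
  have hxl : ∀ j ∈ M4, (2 : ℝ) ≤ |(x j : ℝ)| := fun j hj => hxl' j hj.1
  have hxR : ∀ j ∈ M4, K * K3 ^ E ≤ |(x j : ℝ)| := fun j hj => by
    have h1 : K * K3 ^ E ≤ R := Nat.le_ceil _
    have h2 : (R : ℝ) ≤ j := by exact_mod_cast hj.2.1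
    exact h1.trans (h2.trans (hjx j))
  -- the height
  have hsq : ∀ j ∈ M4, ∀ k, SV S' (w j k) ∧
      HB P (|(x j : ℝ)| ^ (((3 * E + 1 : ℕ) : ℝ))) (w j k) := by
    intro j hj k
    have hj3 := hj.1
    have hj2 := hM3 hj3
    have hj1 := hM2 hj2
    have ht := hxl j hj
    have ht3 : (1 : ℝ) ≤ |(x j : ℝ)| ^ 3 := one_le_pow₀ (by linarith)
    have hB1 : 1 ≤ K3 * |(x j : ℝ)| ^ 3 := one_le_mul_of_one_le_of_one_le hK31 ht3
    have hx23 : |(x j : ℝ)| ^ 2 ≤ |(x j : ℝ)| ^ 3 := pow_le_pow_right₀ (by linarith) (by norm_num)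
    have hsv : ∀ i, SV S' (Sum.elim (b1 j) (b2 j) i) := fun i => by
      cases i with
      | inl i => exact hb1' j hj1 i
      | inr i => exact hb2' j hj2 i
    refine ⟨?_, ?_⟩
    · have h1 : w j k = κ k * ∏ i, Sum.elim (b1 j) (b2 j) i ^ (e k i) := hwe k j hj3
      rw [h1]
      exact sv6 S' _ _ ((sv3 (T k) S' _ (hTS k)).2 (hT k))
        (sv9 S' _ Finset.univ _ fun i _ => sv8 S' _ _ (hsv i))
    · have h1 := hSQ (Sum.elim (b1 j) (b2 j)) (w j) (K3 * |(x j : ℝ)| ^ 3) hB1 hsv (fun i => by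
        cases i with
        | inl i =>
          refine HB_mono (hj.2.2.1 i) ?_
          have h6 : K1 ≤ K3 := by linarith
          have h7 : K1 * |(x j : ℝ)| ^ 2 ≤ K3 * |(x j : ℝ)| ^ 2 :=
            mul_le_mul_of_nonneg_right h6 (by positivity)
          have h8 : K3 * |(x j : ℝ)| ^ 2 ≤ K3 * |(x j : ℝ)| ^ 3 :=
            mul_le_mul_of_nonneg_left hx23 (by linarith)
          exact h7.trans h8
        | inr i =>
          refine HB_mono (hj.2.2.2 i) ?_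
          have h9 := (hy2 j (m2 j hj)).1
          have h8 : K2 * |(y j : ℝ)| ^ 2 ≤ K2 * (2 * |(x j : ℝ)| ^ 3) :=
            mul_le_mul_of_nonneg_left h9 (by linarith)
          have h10 : K2 * (2 * |(x j : ℝ)| ^ 3) ≤ K3 * |(x j : ℝ)| ^ 3 := by
            have h11 : 2 * K2 ≤ K3 := by linarith
            have := mul_le_mul_of_nonneg_right h11 (show 0 ≤ |(x j : ℝ)| ^ 3 by positivity)
            linarith
          exact h8.trans h10) (fun k => hwe k j hj3) k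
      exact HB_mono h1 (Pool.Agent.Helper17.SUB.pow_bd hK hK31 (hxR j hj))
  -- the Laurent polynomials
  have hwp : ∀ j ∈ M4, ∀ k, w j k ≠ 0 := fun j hj => hI.1 j hj.1
  refine hCO M S' P r M4 w
    (∑ i : Fin t1, AddMonoidAlgebra.single (m (Sum.inl i)) (c1 i * c (Sum.inl i)))
    (∑ i : Fin t2, AddMonoidAlgebra.single (m (Sum.inr i)) (c2 i * c (Sum.inr i)))
    (((3 * E + 1 : ℕ) : ℝ)) ε x y hS' hM4i hε (by positivity)
    ⟨fun j hj => hI.1 j hj.1, fun l ρ hl => (hI.2 l ρ hl).subset fun j hj => ⟨hj.1.1, hj.2⟩⟩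
    (fun B => ?_) (fun j hj => ⟨hsq j hj, ?_, ?_, hne j, hd j⟩)
  · refine (Set.finite_le_nat ⌊B⌋₊).subset fun j hj => ?_
    have h1 : (j : ℝ) ≤ B := (hjx j).trans hj.2
    exact Nat.le_floor h1
  · have h1 : ∑ i, c1 i * b1 j i = (x j : M) := hs1 j (hM2 (hM3 hj.1))
    rw [evM_single_sum hB (hwp j hj), ← h1]
    refine sum_congr rfl fun i _ => ?_
    have h2 : b1 j i = c (Sum.inl i) * monM (w j) (m (Sum.inl i)) := hu j hj.1 (Sum.inl i)
    rw [h2, mul_assoc]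
  · have h1 : ∑ i, c2 i * b2 j i = (y j : M) := hs2 j (hM3 hj.1)
    rw [evM_single_sum hB (hwp j hj), ← h1]
    refine sum_congr rfl fun i _ => ?_
    have h2 : b2 j i = c (Sum.inr i) * monM (w j) (m (Sum.inr i)) := hu j hj.1 (Sum.inr i)
    rw [h2, mul_assoc]

end Pool.Agent.Helper17.SUBK
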